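import Mathlib

/-!
# Direction functions on orbits of free groups with commutative stabilisers
-/

open FreeGroup Filter

namespace Q184.Cong

variable {M : Type*} [DecidableEq M]

theorem head_mul_letter (u : FreeGroup M) (l : M × Bool) (hu : 2 ≤ u.norm) :
    (u * FreeGroup.mk [l]).toWord.head? = u.toWord.head? := by
  have hred : IsReduced u.toWord := isReduced_toWord
  have hlen : 2 ≤ u.toWord.length := hu
  rw [toWord_mul, toWord_mk]
  have h1 : reduce [l] = [l] := rfl
  rw [h1]
  rcases List.eq_nil_or_concat u.toWord with h | ⟨V, b, hV⟩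
  · rw [h] at hlen
    simp at hlen
  · rw [List.concat_eq_append] at hV
    rw [hV] at hlen hred ⊢
    have hVne : V ≠ [] := by
      rintro rfl
      simp at hlen
    by_cases hc : b.1 = l.1 ∧ b.2 = !l.2
    · have h2 : reduce (V ++ [b] ++ [l]) = V := by
        have hstep : Red.Step (V ++ [b] ++ [l]) V := by
          obtain ⟨b1, b2⟩ := b
          obtain ⟨l1, l2⟩ := l
          obtain ⟨h3, h4⟩ := hc
          simp only at h3 h4
          subst h3
          subst h4
          have := @Red.Step.not M V [] b1 (!l2)
          simpa using this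
        rw [reduce.Step.eq hstep]
        exact (IsReduced.reduce_eq (List.IsChain.left_of_append hred))
      rw [h2, List.head?_append_of_ne_nil _ hVne]
    · have h2 : reduce (V ++ [b] ++ [l]) = V ++ [b] ++ [l] := by
        apply IsReduced.reduce_eq
        rw [List.append_assoc]
        have h3 : IsReduced ([b] ++ [l]) := by
          rw [List.singleton_append, isReduced_cons_cons]
          refine ⟨fun h => ?_, by simp [FreeGroup.IsReduced]⟩
          by_contra h'
          apply hc
          refine ⟨h, ?_⟩
          cases hb : b.2 <;> cases hl : l.2 <;> simp_all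
        rw [← List.append_assoc]
        exact IsReduced.append_overlap hred h3 (by simp)
      rw [h2, List.head?_append_of_ne_nil _ (by simp)]

theorem norm_mul_letter (u : FreeGroup M) (l : M × Bool) :
    u.norm ≤ (u * FreeGroup.mk [l]).norm + 1 := by
  have h1 : u = (u * FreeGroup.mk [l]) * (FreeGroup.mk [l])⁻¹ := by group
  conv_lhs => rw [h1]
  refine (FreeGroup.norm_mul_le _ _).trans ?_
  rw [norm_inv_eq]
  exact Nat.add_le_add_left (norm_mk_le (L₁ := [l])) _

theorem head_mul_mk : ∀ (W : List (M × Bool)) (u : FreeGroup M), W.length < u.norm →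
    (u * FreeGroup.mk W).toWord.head? = u.toWord.head? := by
  intro W
  induction W with
  | nil =>
    intro u _
    rw [← one_eq_mk, mul_one]
  | cons l W ih =>
    intro u hu
    have h1 : FreeGroup.mk (l :: W) = FreeGroup.mk [l] * FreeGroup.mk W := by
      rw [mul_mk, List.singleton_append]
    simp only [List.length_cons] at hu
    rw [h1, ← mul_assoc]
    rcases Nat.lt_or_ge W.length 1 with h0 | h0
    · have hW : W = [] := List.length_eq_zero_iff.mp (by omega)
      subst hW
      rw [← one_eq_mk, mul_one]
      exact head_mul_letter u l (by simpa using hu : 1 < u.norm)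
    · have h2 := norm_mul_letter u l
      rw [ih _ (by omega), head_mul_letter u l (by omega)]

theorem head_mul (u w : FreeGroup M) (h : w.norm < u.norm) :
    (u * w).toWord.head? = u.toWord.head? := by
  have := head_mul_mk w.toWord u h
  rwa [mk_toWord] at this

theorem le_norm_pow {h : FreeGroup M} (hh : h ≠ 1) (k : ℕ) : k ≤ (h ^ k).norm := by
  cases k with
  | zero => exact Nat.zero_le _
  | succ k =>
    have h1 : (h ^ (k + 1)).toWord = _ :=
      (toWord_pow h (k + 1)).trans
        (reduceCyclically.reduce_flatten_replicate_succ isReduced_toWord k)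
    have hne : reduceCyclically h.toWord ≠ [] := by
      intro h0
      have h2 := reduceCyclically.conj_conjugator_reduceCyclically h.toWord
      rw [h0] at h2
      apply hh
      rw [← mk_toWord (x := h), ← h2]
      simp only [List.append_nil]
      rw [← mul_mk, ← inv_mk, mul_inv_cancel]
    have hpos : 1 ≤ (reduceCyclically h.toWord).length := List.length_pos_iff.mpr hne
    change k + 1 ≤ (h ^ (k + 1)).toWord.length
    rw [h1]
    simp only [List.length_append, List.length_flatten, List.map_replicate, List.sum_replicate,
      smul_eq_mul]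
    nlinarith

theorem tendsto_norm {h : FreeGroup M} (hh : h ≠ 1) (u : FreeGroup M) (n : ℕ) :
    ∀ᶠ k in atTop, n < (u * h ^ k).norm := by
  filter_upwards [eventually_gt_atTop (n + u.norm)] with k hk
  have h1 := le_norm_pow hh k
  have h2 : (h ^ k).norm ≤ u.norm + (u * h ^ k).norm := by
    have : h ^ k = u⁻¹ * (u * h ^ k) := by group
    conv_lhs => rw [this]
    refine (FreeGroup.norm_mul_le _ _).trans ?_
    rw [norm_inv_eq]
  omega

theorem exists_dir (h u : FreeGroup M) :
    ∃ d, ∀ᶠ k in atTop, (u * h ^ k).toWord.head? = d := by
  by_cases hh : h = 1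
  · refine ⟨u.toWord.head?, Eventually.of_forall fun k => ?_⟩
    rw [hh, one_pow, mul_one]
  · obtain ⟨K, hK⟩ := eventually_atTop.mp (tendsto_norm hh u h.norm)
    refine ⟨(u * h ^ K).toWord.head?, eventually_atTop.mpr ⟨K, fun k hk => ?_⟩⟩
    induction k, hk using Nat.le_induction with
    | base => rfl
    | succ k hk ih =>
      rw [pow_succ, ← mul_assoc, head_mul _ _ (hK k hk), ih]

theorem dir_shift (h u w : FreeGroup M) (hw : w * h = h * w) (h1 : h = 1 → w = 1)
    {d : Option (M × Bool)} (hd : ∀ᶠ k in atTop, (u * h ^ k).toWord.head? = d) :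
    ∀ᶠ k in atTop, (u * w * h ^ k).toWord.head? = d := by
  by_cases hh : h = 1
  · rw [h1 hh, mul_one]
    exact hd
  · filter_upwards [hd, tendsto_norm hh u w.norm] with k hk hk2
    have hcomm : w * h ^ k = h ^ k * w := (Commute.pow_right (show Commute w h from hw) k)
    rw [mul_assoc, hcomm, ← mul_assoc, head_mul _ _ hk2, hk]

theorem head_of_mul (i : M) (v : FreeGroup M) (hv : v.toWord.head? ≠ some (i, false)) :
    (FreeGroup.of i * v).toWord.head? = some (i, true) := by
  rw [toWord_mul, toWord_of, List.singleton_append]
  have : IsReduced ((i, true) :: v.toWord) := by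
    cases hw : v.toWord with
    | nil => simp [FreeGroup.IsReduced]
    | cons a L =>
      rw [isReduced_cons_cons]
      refine ⟨?_, by rw [← hw]; exact isReduced_toWord⟩
      intro h
      rw [hw] at hv
      simp only [List.head?_cons, ne_eq, Option.some.injEq] at hv
      by_contra h'
      apply hv
      ext
      · exact h.symm
      · cases h2 : a.2
        · rfl
        · exact absurd h2.symm h'
  rw [this.reduce_eq]
  rfl

variable {X : Type*}

/-- For an action of a free group with commutative point stabilisers there is a direction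
function: each edge of the orbit graph points along the direction of exactly one of its
endpoints. -/
theorem exists_direction (φ : FreeGroup M →* Equiv.Perm X)
    (hcomm : ∀ x u v, φ u x = x → φ v x = x → u * v = v * u) :
    ∃ D : X → Option (M × Bool), ∀ x i,
      D (φ (FreeGroup.of i) x) = some (i, true) ∨ D x = some (i, false) := by
  classical
  let S : Setoid X :=
    { r := fun x y => ∃ u, φ u x = y
      iseqv :=
        { refl := fun x => ⟨1, by simp⟩
          symm := by
            rintro x y ⟨u, rfl⟩
            exact ⟨u⁻¹, by simp⟩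
          trans := by
            rintro x y z ⟨u, rfl⟩ ⟨v, rfl⟩
            exact ⟨v * u, by simp⟩ } }
  let base : X → X := fun x => (Quotient.mk S x).out
  have hbase : ∀ x, ∃ u, φ u (base x) = x := fun x => Quotient.mk_out (s := S) x
  have hbase_eq : ∀ x u, base (φ u x) = base x := by
    intro x u
    change (Quotient.mk S (φ u x)).out = (Quotient.mk S x).out
    have : Quotient.mk S (φ u x) = Quotient.mk S x :=
      Quotient.sound ⟨u⁻¹, by simp⟩
    rw [this]
  have hstab : ∀ b : X, ∃ h, φ h b = b ∧ (h = 1 → ∀ w, φ w b = b → w = 1) := by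
    intro b
    by_cases hb : ∃ h, h ≠ 1 ∧ φ h b = b
    · obtain ⟨h, h1, h2⟩ := hb
      exact ⟨h, h2, fun h3 => absurd h3 h1⟩
    · refine ⟨1, by simp, fun _ w hw => ?_⟩
      by_contra hne
      exact hb ⟨w, hne, hw⟩
  choose U hU using hbase
  choose H hH1 hH2 using hstab
  choose dd hdd using (fun (h u : FreeGroup M) => exists_dir h u)
  refine ⟨fun x => dd (H (base x)) (U x), fun x i => ?_⟩
  by_cases hx : dd (H (base x)) (U x) = some (i, false)
  · right
    exact hx
  · left
    set y := φ (FreeGroup.of i) x with hy
    have hby : base y = base x := hbase_eq x _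
    set h := H (base x) with hh
    have e1 := hdd h (U x)
    have e2 := hdd h (U y)
    -- the element relating `U y` and `of i * U x`
    set w := (U y)⁻¹ * (FreeGroup.of i * U x) with hw
    have hwstab : φ w (base x) = base x := by
      rw [hw, φ.map_mul, φ.map_mul, Equiv.Perm.mul_apply, Equiv.Perm.mul_apply, hU x, ← hy,
        φ.map_inv, Equiv.Perm.inv_eq_iff_eq]
      have := hU y
      rw [hby] at this
      exact this.symm
    have hwcomm : w * h = h * w := hcomm (base x) w h hwstab (hH1 _)
    have e3 := dir_shift h (U y) w hwcomm (fun h1 => hH2 (base x) h1 w hwstab) e2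
    have hmul : U y * w = FreeGroup.of i * U x := by rw [hw]; group
    rw [hmul] at e3
    have e4 : ∀ᶠ k in atTop, (FreeGroup.of i * U x * h ^ k).toWord.head? = some (i, true) := by
      filter_upwards [e1] with k hk
      rw [mul_assoc]
      apply head_of_mul
      rw [hk]
      exact hx
    obtain ⟨k, hk1, hk2⟩ := (e3.and e4).exists
    change dd (H (base y)) (U y) = some (i, true)
    rw [hby, ← hk2, hk1]

end Q184.Cong
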