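import Mathlib

/-!
# Constraint systems on functional graphs
-/

open Function

namespace Q184.Cong

variable {X I : Type*}

/-- `z` admits a consistent labelling of its forward orbit. -/
def Good (p : X → X) (Rel : X → I → I → Prop) (z : X) : Prop :=
  ∃ t : ℕ → I, (∀ j, Rel (p^[j] z) (t j) (t (j + 1))) ∧
    ∀ j k, p^[j] z = p^[k] z → t j = t k

theorem exists_good (p : X → X) (Rel : X → I → I → Prop) (hI : Nonempty I)
    (hf : ∀ y a, ∃ b, Rel y a b)
    (hcyc : ∀ y ∈ periodicPts p, ∃ k, Good p Rel (p^[k] y)) (x : X) :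
    ∃ k, Good p Rel (p^[k] x) := by
  by_cases h : ∃ m, p^[m] x ∈ periodicPts p
  · obtain ⟨m, hm⟩ := h
    obtain ⟨k, hk⟩ := hcyc _ hm
    refine ⟨k + m, ?_⟩
    rwa [iterate_add_apply]
  · refine ⟨0, ?_⟩
    choose F hF using hf
    let t : ℕ → I := fun n => Nat.rec (Classical.choice hI) (fun j a => F (p^[j] x) a) n
    refine ⟨t, fun j => hF _ _, ?_⟩
    have key : ∀ j k, j < k → p^[j] x = p^[k] x → False := by
      intro j k hjk heq
      apply h
      refine ⟨j, k - j, by omega, ?_⟩
      change p^[k - j] (p^[j] x) = p^[j] x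
      rw [← iterate_add_apply, Nat.sub_add_cancel hjk.le]
      exact heq.symm
    intro j k heq
    rcases lt_trichotomy j k with h' | h' | h'
    · exact (key j k h' heq).elim
    · rw [h']
    · exact (key k j h' heq.symm).elim

/-- If every point has a good point in its forward orbit, the constraint system is solvable. -/
theorem exists_solution (p : X → X) (Rel : X → I → I → Prop) (hI : Nonempty I)
    (hb : ∀ y b, ∃ a, Rel y a b)
    (hgood : ∀ x, ∃ k, Good p Rel (p^[k] x)) :
    ∃ c : X → I, ∀ y, Rel y (c y) (c (p y)) := by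
  classical
  -- the components
  let S : Setoid X :=
    { r := fun x y => ∃ a b, p^[a] x = p^[b] y
      iseqv :=
        { refl := fun x => ⟨0, 0, rfl⟩
          symm := fun ⟨a, b, h⟩ => ⟨b, a, h.symm⟩
          trans := by
            rintro x y z ⟨a, b, h⟩ ⟨c, d, h'⟩
            refine ⟨c + a, b + d, ?_⟩
            rw [iterate_add_apply, h, ← iterate_add_apply, add_comm c b, iterate_add_apply, h',
              ← iterate_add_apply] } }
  choose k hk using hgood
  let rep : X → X := fun x => (Quotient.mk S x).out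
  let base : X → X := fun x => p^[k (rep x)] (rep x)
  have hrep : ∀ x, ∃ a b, p^[a] (rep x) = p^[b] x := fun x => Quotient.mk_out (s := S) x
  have hbase : ∀ x, ∃ a b, p^[a] (base x) = p^[b] x := by
    intro x
    obtain ⟨a, b, h⟩ := hrep x
    refine ⟨a, k (rep x) + b, ?_⟩
    change p^[a] (p^[k (rep x)] (rep x)) = _
    rw [← iterate_add_apply, add_comm a, iterate_add_apply, h, ← iterate_add_apply]
  have hbase_p : ∀ x, base (p x) = base x := by
    intro x
    have : rep (p x) = rep x := by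
      change (Quotient.mk S (p x)).out = (Quotient.mk S x).out
      have h1 : Quotient.mk S (p x) = Quotient.mk S x := Quotient.sound ⟨0, 1, rfl⟩
      rw [h1]
    change p^[k (rep (p x))] (rep (p x)) = p^[k (rep x)] (rep x)
    rw [this]
  have hbase_it : ∀ n x, base (p^[n] x) = base x := by
    intro n
    induction n with
    | zero => intro x; rfl
    | succ n ih =>
      intro x
      rw [iterate_succ_apply', hbase_p, ih]
  have hgb : ∀ x, Good p Rel (base x) := fun x => hk (rep x)
  choose t0 ht0 using (fun z : {z // Good p Rel z} => z.2)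
  let t : X → ℕ → I := fun x => t0 ⟨base x, hgb x⟩
  have ht_base : ∀ x y, base x = base y → t x = t y := by
    intro x y h
    change t0 ⟨base x, hgb x⟩ = t0 ⟨base y, hgb y⟩
    congr 1
    exact Subtype.ext h
  have ht1 : ∀ x j, Rel (p^[j] (base x)) (t x j) (t x (j + 1)) := fun x j =>
    (ht0 ⟨base x, hgb x⟩).1 j
  have ht2 : ∀ x j k, p^[j] (base x) = p^[k] (base x) → t x j = t x k := fun x j k h =>
    (ht0 ⟨base x, hgb x⟩).2 j k h
  let In : X → Prop := fun x => ∃ j, p^[j] (base x) = x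
  have hIn_p : ∀ x, In x → In (p x) := by
    rintro x ⟨j, hj⟩
    refine ⟨j + 1, ?_⟩
    rw [hbase_p, iterate_succ_apply', hj]
  have hhit : ∀ x, ∃ a, In (p^[a] x) := by
    intro x
    obtain ⟨a, b, h⟩ := hbase x
    refine ⟨b, a, ?_⟩
    rw [hbase_it, h]
  let c0 : X → I := fun x => if h : In x then t x h.choose else Classical.choice hI
  have hc0 : ∀ x j, p^[j] (base x) = x → c0 x = t x j := by
    intro x j hj
    have h : In x := ⟨j, hj⟩
    have h1 : c0 x = t x h.choose := dif_pos h
    rw [h1]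
    exact ht2 x _ _ (h.choose_spec.trans hj.symm)
  choose B hB using hb
  let cN : ℕ → X → I := fun n =>
    Nat.rec c0 (fun _ f x => if In x then c0 x else B x (f (p x))) n
  let d : X → ℕ := fun x => Nat.find (hhit x)
  have hd0 : ∀ x, In x → d x = 0 := by
    intro x hx
    exact (Nat.find_eq_zero (hhit x)).mpr hx
  have hd1 : ∀ x, ¬ In x → d x = d (p x) + 1 := by
    intro x hx
    have hpos : d x ≠ 0 := by
      intro h0
      exact hx ((Nat.find_eq_zero (hhit x)).mp h0)
    obtain ⟨a, ha⟩ := Nat.exists_eq_succ_of_ne_zero hpos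
    have hspec : In (p^[d x] x) := Nat.find_spec (hhit x)
    have hle1 : d (p x) ≤ a := by
      refine Nat.find_le ?_
      rw [ha] at hspec
      exact hspec
    have hle2 : d x ≤ d (p x) + 1 := Nat.find_min' (hhit x) (Nat.find_spec (hhit (p x)))
    omega
  refine ⟨fun x => cN (d x) x, fun y => ?_⟩
  by_cases hy : In y
  · have hpy : In (p y) := hIn_p y hy
    change Rel y (cN (d y) y) (cN (d (p y)) (p y))
    rw [hd0 y hy, hd0 (p y) hpy]
    change Rel y (c0 y) (c0 (p y))
    obtain ⟨j, hj⟩ := hy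
    rw [hc0 y j hj, hc0 (p y) (j + 1) (by rw [hbase_p, iterate_succ_apply', hj]),
      ht_base (p y) y (hbase_p y)]
    have := ht1 y j
    rwa [hj] at this
  · change Rel y (cN (d y) y) (cN (d (p y)) (p y))
    rw [hd1 y hy]
    have h1 : cN (d (p y) + 1) y = B y (cN (d (p y)) (p y)) := by
      change (if In y then c0 y else B y (cN (d (p y)) (p y))) = _
      rw [if_neg hy]
    rw [h1]
    exact hB _ _

/-! ### Cycles for block constraints -/

/-- The sign of the constraint `a ∈ P ↔ b ∈ Q`, relative to `i₀`. -/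
noncomputable def sgn (i₀ : I) (P Q : Set I) : ℤˣ := by
  classical exact if (i₀ ∈ P ↔ i₀ ∈ Q) then 1 else -1

theorem sgn_eq_one {i₀ : I} {P Q : Set I} : sgn i₀ P Q = 1 ↔ (i₀ ∈ P ↔ i₀ ∈ Q) := by
  classical
  unfold sgn
  split_ifs with h
  · simp [h]
  · simp only [h, iff_false]
    decide

theorem sgn_ne_one {i₀ : I} {P Q : Set I} : sgn i₀ P Q = -1 ↔ ¬ (i₀ ∈ P ↔ i₀ ∈ Q) := by
  rw [← sgn_eq_one]
  rcases Int.units_eq_one_or (sgn i₀ P Q) with h | h
  · simp [h]
  · simp [h]

theorem good_of_fullColumn (p : X → X) (P Q : X → Set I)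
    (hP : ∀ y, (Q y).Nonempty ∧ Q y ≠ Set.univ)
    (z : X) (n : ℕ) (hn : minimalPeriod p z = n) (hn0 : 0 < n) (c : Prop)
    (hc : ∀ a : Prop, ∃ t : I, (t ∈ Q (p^[n - 1] z) ↔ a) ∧ (t ∈ P z ↔ c)) :
    Good p (fun y a b => (a ∈ P y ↔ b ∈ Q y)) z := by
  classical
  have hex : ∀ (y : X) (a : Prop), ∃ b, (b ∈ Q y ↔ a) := by
    intro y a
    by_cases ha : a
    · obtain ⟨b, hb⟩ := (hP y).1
      exact ⟨b, by simp [hb, ha]⟩
    · obtain ⟨b, hb⟩ := (Set.ne_univ_iff_exists_notMem _).mp (hP y).2
      exact ⟨b, by simp [hb, ha]⟩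
  choose F hF using hex
  -- state: the truth value leaving vertex j, and the label there
  let st : ℕ → I × Prop := fun n => Nat.rec (F z True, c)
    (fun j s => (F (p^[j] z) s.2, F (p^[j] z) s.2 ∈ P (p^[j + 1] z))) n
  have hst2 : ∀ j, (st (j + 1)).2 = ((st (j + 1)).1 ∈ P (p^[j + 1] z)) := fun j => rfl
  have hst1 : ∀ j, ((st (j + 1)).1 ∈ Q (p^[j] z) ↔ (st j).2) := fun j => hF _ _
  obtain ⟨T0, hT1, hT2⟩ := hc (st (n - 1)).2
  let t : ℕ → I := fun j => if j % n = 0 then T0 else (st (j % n)).1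
  have hmod : ∀ j, p^[j % n] z = p^[j] z := by
    intro j
    rw [← hn, iterate_mod_minimalPeriod_eq]
  have hout : ∀ j, (t j ∈ P (p^[j] z) ↔ (st (j % n)).2) := by
    intro j
    by_cases h0 : j % n = 0
    · have h1 : t j = T0 := if_pos h0
      rw [h1, ← hmod, h0]
      exact hT2
    · have h1 : t j = (st (j % n)).1 := if_neg h0
      rw [h1, ← hmod]
      obtain ⟨r, hr⟩ := Nat.exists_eq_succ_of_ne_zero h0
      rw [hr]
  have hin : ∀ j, (t (j + 1) ∈ Q (p^[j] z) ↔ (st (j % n)).2) := by
    intro j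
    have hlt : j % n < n := Nat.mod_lt _ hn0
    rcases Nat.lt_or_ge (j % n + 1) n with h | h
    · have h2 : (j + 1) % n = j % n + 1 := by
        rw [Nat.add_mod, Nat.mod_eq_of_lt (a := 1) (by omega), Nat.mod_eq_of_lt h]
      have h1 : t (j + 1) = (st (j % n + 1)).1 := by
        have : t (j + 1) = (st ((j + 1) % n)).1 := if_neg (by omega)
        rw [this, h2]
      rw [h1, ← hmod j]
      exact hst1 _
    · have h3 : j % n = n - 1 := by omega
      have h2 : (j + 1) % n = 0 := by
        rw [← Nat.mod_add_div j n, h3, add_right_comm, Nat.sub_add_cancel hn0]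
        simp
      have h1 : t (j + 1) = T0 := if_pos h2
      rw [h1, ← hmod j, h3]
      exact hT1
  refine ⟨t, fun j => (hout j).trans (hin j).symm, ?_⟩
  intro j k hjk
  have h1 : j % n = k % n := by
    rw [← hmod j, ← hmod k] at hjk
    rw [← hn] at hn0
    exact (iterate_eq_iterate_iff_of_lt_minimalPeriod
      (by rw [hn]; exact Nat.mod_lt _ (hn ▸ hn0)) (by rw [hn]; exact Nat.mod_lt _ (hn ▸ hn0))).mp hjk
  change (if j % n = 0 then T0 else (st (j % n)).1) = if k % n = 0 then T0 else (st (k % n)).1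
  rw [h1]

theorem matched_of_not_fullColumn (P Q : Set I) (hQ : Q.Nonempty ∧ Q ≠ Set.univ)
    (h : ∀ c : Prop, ¬ ∀ a : Prop, ∃ t : I, (t ∈ Q ↔ a) ∧ (t ∈ P ↔ c)) :
    Q = P ∨ Q = Pᶜ := by
  have h1 := h True
  have h2 := h False
  push Not at h1 h2
  obtain ⟨a, ha⟩ := h1
  obtain ⟨b, hb⟩ := h2
  obtain ⟨q, hq⟩ := hQ.1
  obtain ⟨r, hr⟩ := (Set.ne_univ_iff_exists_notMem _).mp hQ.2
  by_cases haT : a <;> by_cases hbT : b
  · -- no t in Q ∩ P, no t in Q ∩ Pᶜ
    exfalso
    by_cases hqP : q ∈ P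
    · have := ha q (by simp [hq, haT])
      simp [hqP] at this
    · have := hb q (by simp [hq, hbT])
      simp [hqP] at this
  · -- no t in Q ∩ P; no t in Qᶜ ∩ Pᶜ
    right
    ext x
    constructor
    · intro hx hxP
      have := ha x (by simp [hx, haT])
      simp [hxP] at this
    · intro hx
      by_contra hxQ
      have := hb x (by simp [hxQ, hbT])
      simp at this
      exact hx this
  · left
    ext x
    constructor
    · intro hx
      by_contra hxP
      have := hb x (by simp [hx, hbT])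
      simp at this
      exact hxP this
    · intro hxP
      by_contra hxQ
      have := ha x (by simp [hxQ, haT])
      simp [hxP] at this
  · exfalso
    by_cases hrP : r ∈ P
    · have := ha r (by simp [hr, haT])
      simp [hrP] at this
    · have := hb r (by simp [hr, hbT])
      simp [hrP] at this

theorem iff_aux {A B C D : Prop} (h : (C ↔ D) ↔ ((A ↔ B) ↔ (B ↔ D))) : A ↔ C := by
  by_cases hA : A <;> by_cases hB : B <;> by_cases hC : C <;> by_cases hD : D <;> simp_all

theorem good_of_matched (p : X → X) (P Q : X → Set I) (i₀ : I)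
    (hP : ∀ y, (P y).Nonempty ∧ P y ≠ Set.univ)
    (z : X) (n : ℕ) (hn : minimalPeriod p z = n) (hn0 : 0 < n)
    (hm : ∀ j, Q (p^[j] z) = P (p^[j + 1] z) ∨ Q (p^[j] z) = (P (p^[j + 1] z))ᶜ)
    (hs : ∏ j ∈ Finset.range n, sgn i₀ (P (p^[j] z)) (Q (p^[j] z)) = 1) :
    Good p (fun y a b => (a ∈ P y ↔ b ∈ Q y)) z := by
  classical
  have hex : ∀ y, ∃ a, ¬ (a ∈ P y ↔ i₀ ∈ P y) := by
    intro y
    by_cases h : i₀ ∈ P y
    · obtain ⟨b, hb⟩ := (Set.ne_univ_iff_exists_notMem _).mp (hP y).2
      exact ⟨b, by simp [h, hb]⟩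
    · obtain ⟨b, hb⟩ := (hP y).1
      exact ⟨b, by simp [h, hb]⟩
  choose A hA using hex
  let e : ℕ → ℤˣ := fun j => sgn i₀ (P (p^[j] z)) (Q (p^[j] z))
  let s : ℕ → ℤˣ := fun j => ∏ k ∈ Finset.range j, e k
  let t : ℕ → I := fun j => if s j = 1 then i₀ else A (p^[j] z)
  have hout : ∀ j, ((t j ∈ P (p^[j] z)) ↔ i₀ ∈ P (p^[j] z)) ↔ s j = 1 := by
    intro j
    by_cases h : s j = 1
    · have h1 : t j = i₀ := if_pos h
      simp [h1, h]
    · have h1 : t j = A (p^[j] z) := if_neg h
      rw [h1]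
      simp only [hA, h]
  have hin : ∀ j, ((t (j + 1) ∈ Q (p^[j] z)) ↔ i₀ ∈ Q (p^[j] z)) ↔ s (j + 1) = 1 := by
    intro j
    rw [← hout (j + 1)]
    rcases hm j with h | h
    · rw [h]
    · rw [h]
      simp only [Set.mem_compl_iff]
      tauto
  have hsucc : ∀ j, s (j + 1) = s j * e j := fun j => Finset.prod_range_succ _ _
  refine ⟨t, fun j => ?_, ?_⟩
  · have h1 := hout j
    have h2 := hin j
    rw [hsucc] at h2
    have h3 : e j = 1 ↔ (i₀ ∈ P (p^[j] z) ↔ i₀ ∈ Q (p^[j] z)) := sgn_eq_one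
    have h4 : s j * e j = 1 ↔ (s j = 1 ↔ e j = 1) := by
      rcases Int.units_eq_one_or (s j) with h | h <;>
      rcases Int.units_eq_one_or (e j) with h' | h' <;> simp [h, h']
    rw [h4, h3, ← h1] at h2
    exact iff_aux h2
  · have hmod : ∀ j, p^[j % n] z = p^[j] z := by
      intro j
      rw [← hn, iterate_mod_minimalPeriod_eq]
    have heper : ∀ j, e (j + n) = e j := by
      intro j
      have : p^[j + n] z = p^[j] z := by
        rw [← hmod (j + n), Nat.add_mod_right, hmod]
      change sgn i₀ (P (p^[j + n] z)) (Q (p^[j + n] z)) = sgn i₀ (P (p^[j] z)) (Q (p^[j] z))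
      rw [this]
    have hsper : ∀ j, s (j + n) = s j := by
      intro j
      induction j with
      | zero =>
        rw [zero_add]
        change (∏ k ∈ Finset.range n, e k) = ∏ k ∈ Finset.range 0, e k
        rw [Finset.prod_range_zero]
        exact hs
      | succ j ih =>
        rw [add_right_comm, hsucc, ih, heper, hsucc]
    have hsmod : ∀ j, s (j % n) = s j := by
      intro j
      have : ∀ m r, s (r + n * m) = s r := by
        intro m
        induction m with
        | zero => intro r; simp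
        | succ m ih =>
          intro r
          rw [Nat.mul_succ, ← add_assoc, hsper, ih]
      conv_rhs => rw [← Nat.mod_add_div j n]
      rw [this]
    intro j k hjk
    have h1 : j % n = k % n := by
      have hjk' := hjk
      rw [← hmod j, ← hmod k] at hjk'
      exact (iterate_eq_iterate_iff_of_lt_minimalPeriod
        (by rw [hn]; exact Nat.mod_lt _ hn0) (by rw [hn]; exact Nat.mod_lt _ hn0)).mp hjk'
    change (if s j = 1 then i₀ else A (p^[j] z)) = if s k = 1 then i₀ else A (p^[k] z)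
    rw [← hsmod j, ← hsmod k, h1, hjk]

/-- A periodic point whose cycle has trivial total sign has a good point in its forward orbit. -/
theorem exists_good_of_periodic (p : X → X) (P Q : X → Set I) (i₀ : I)
    (hP : ∀ y, (P y).Nonempty ∧ P y ≠ Set.univ) (hQ : ∀ y, (Q y).Nonempty ∧ Q y ≠ Set.univ)
    (z : X) (hz : z ∈ periodicPts p)
    (hs : ∏ j ∈ Finset.range (minimalPeriod p z), sgn i₀ (P (p^[j] z)) (Q (p^[j] z)) = 1) :
    ∃ k, Good p (fun y a b => (a ∈ P y ↔ b ∈ Q y)) (p^[k] z) := by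
  have hn0 : 0 < minimalPeriod p z := minimalPeriod_pos_of_mem_periodicPts hz
  by_cases h : ∃ k, ∃ c : Prop, ∀ a : Prop, ∃ t : I,
      (t ∈ Q (p^[minimalPeriod p z - 1] (p^[k] z)) ↔ a) ∧ (t ∈ P (p^[k] z) ↔ c)
  · obtain ⟨k, c, hc⟩ := h
    refine ⟨k, ?_⟩
    have hmp : minimalPeriod p (p^[k] z) = minimalPeriod p z :=
      minimalPeriod_apply_iterate hz k
    exact good_of_fullColumn p P Q hQ _ _ hmp hn0 c hc
  · push Not at h
    refine ⟨0, good_of_matched p P Q i₀ hP z _ rfl hn0 ?_ hs⟩
    intro j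
    have h1 : p^[minimalPeriod p z - 1] (p^[j + 1] z) = p^[j] z := by
      rw [← iterate_add_apply]
      have : minimalPeriod p z - 1 + (j + 1) = j + minimalPeriod p z := by omega
      rw [this, iterate_add_apply, iterate_minimalPeriod]
    refine matched_of_not_fullColumn _ _ (hQ _) ?_
    intro c hc
    obtain ⟨a, ha⟩ := h (j + 1) c
    obtain ⟨t, ht1, ht2⟩ := hc a
    rw [h1] at ha
    rcases ha t ht1 with h | h
    · exact h.2 (ht2.mp h.1)
    · exact h.1 (ht2.mpr h.2)

end Q184.Cong
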