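import Mathlib

/-!
# GL₂(ℝ) acts by isometries on the upper half plane; stabilisers
-/

open UpperHalfPlane Matrix Matrix.SpecialLinearGroup

namespace Q184.Cong

theorem dist_gl_smul (g : GL (Fin 2) ℝ) (z w : ℍ) : dist (g • z) (g • w) = dist z w := by
  have hcosh : Real.cosh (dist (g • z) (g • w)) = Real.cosh (dist z w) := by
    rw [cosh_dist, cosh_dist]
    congr 1
    have hz : denom g z ≠ 0 := denom_ne_zero g z
    have hw : denom g w ≠ 0 := denom_ne_zero g w
    have hdet : (g.det.val : ℝ) ≠ 0 := g.det.ne_zero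
    have hdist : dist ((g • z : ℍ) : ℂ) ((g • w : ℍ) : ℂ) ^ 2 =
        g.det.val ^ 2 * dist (z : ℂ) w ^ 2 /
          (Complex.normSq (denom g z) * Complex.normSq (denom g w)) := by
      rw [dist_eq_norm, dist_eq_norm, coe_smul, coe_smul, ← map_sub, norm_σ]
      have hsub : num g z / denom g z - num g w / denom g w =
          (g.det.val : ℂ) * (z - w) / (denom g z * denom g w) := by
        rw [div_sub_div _ _ hz hw]
        congr 1
        have : (g.det.val : ℂ) = (g 0 0 : ℂ) * (g 1 1) - (g 0 1) * (g 1 0) := by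
          have := Matrix.det_fin_two (g : Matrix (Fin 2) (Fin 2) ℝ)
          rw [Matrix.GeneralLinearGroup.val_det_apply, this]
          push_cast
          ring
        rw [this]
        simp only [num, denom]
        ring
      rw [hsub, norm_div, norm_mul, norm_mul, Complex.norm_real, Complex.normSq_eq_norm_sq,
        Complex.normSq_eq_norm_sq, div_pow, mul_pow, mul_pow]
      congr 2
      exact sq_abs _
    rw [hdist, im_smul_eq_div_normSq, im_smul_eq_div_normSq]
    have h1 : Complex.normSq (denom g z) ≠ 0 := normSq_denom_ne_zero g z.im_ne_zero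
    have h2 : Complex.normSq (denom g w) ≠ 0 := normSq_denom_ne_zero g w.im_ne_zero
    have h3 : z.im ≠ 0 := z.im_ne_zero
    have h4 : w.im ≠ 0 := w.im_ne_zero
    have h5 : |(g.det.val : ℝ)| ≠ 0 := abs_ne_zero.mpr hdet
    have h6 : (g.det.val : ℝ) ^ 2 = |(g.det.val : ℝ)| ^ 2 := (sq_abs _).symm
    rw [h6]
    field_simp
  exact Real.cosh_injOn (Set.mem_Ici.mpr dist_nonneg) (Set.mem_Ici.mpr dist_nonneg) hcosh

/-- The isometry of the upper half plane given by a matrix. -/
noncomputable def isomOf (g : GL (Fin 2) ℝ) : UpperHalfPlane ≃ᵢ UpperHalfPlane :=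
  IsometryEquiv.mk (MulAction.toPerm g) (Isometry.of_dist_eq (dist_gl_smul g))

@[simp] theorem isomOf_apply (g : GL (Fin 2) ℝ) (z : ℍ) : isomOf g z = g • z := rfl

theorem trace_zero_of_fixed {g : GL (Fin 2) ℝ} (hg : g.det.val < 0) {z : ℍ} (hz : g • z = z) :
    g 1 1 = - g 0 0 := by
  have h1 : ((g • z : ℍ) : ℂ) = z := by rw [hz]
  rw [coe_smul] at h1
  have hd : denom g z ≠ 0 := denom_ne_zero g z
  have hσ : σ g = Complex.conjCAE := by
    rw [σ, if_neg (not_lt.mpr hg.le)]
  rw [hσ] at h1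
  have h2 : num g z / denom g z = (starRingEnd ℂ) (z : ℂ) := by
    have h1' : (starRingEnd ℂ) (num g z / denom g z) = (z : ℂ) := h1
    have h1'' := congrArg (starRingEnd ℂ) h1'
    rwa [Complex.conj_conj] at h1''
  rw [div_eq_iff hd] at h2
  simp only [num, denom] at h2
  have h3 := congrArg Complex.im h2
  simp at h3
  have h4 : (z : ℍ).im ≠ 0 := z.im_ne_zero
  have h5 : (g 1 1 + g 0 0) * z.im = 0 := by
    linarith
  have := (mul_eq_zero.mp h5).resolve_right h4
  linarith

theorem commute_of_fixed {g h : GL (Fin 2) ℝ} (hg : 0 < g.det.val) (hh : 0 < h.det.val) {z : ℍ}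
    (hgz : g • z = z) (hhz : h • z = z) : g * h = h * g := by
  have key : ∀ k : GL (Fin 2) ℝ, 0 < k.det.val → k • z = z →
      k 1 1 - k 0 0 = - 2 * z.re * k 1 0 ∧ k 0 1 = -(z.re ^ 2 + z.im ^ 2) * k 1 0 := by
    intro k hk hkz
    have h1 : ((k • z : ℍ) : ℂ) = z := by rw [hkz]
    rw [coe_smul_of_det_pos hk] at h1
    have hd : denom k z ≠ 0 := denom_ne_zero k z
    rw [div_eq_iff hd] at h1
    simp only [num, denom] at h1
    have h3 := congrArg Complex.im h1
    have h4 := congrArg Complex.re h1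
    simp at h3 h4
    have h5 : z.im ≠ 0 := z.im_ne_zero
    have h6 : (k 1 1 - k 0 0 + 2 * z.re * k 1 0) * z.im = 0 := by
      linarith
    have h7 := (mul_eq_zero.mp h6).resolve_right h5
    refine ⟨by linarith, ?_⟩
    have h8 : k 1 1 = k 0 0 - 2 * z.re * k 1 0 := by linarith
    rw [h8] at h4
    nlinarith
  obtain ⟨a1, a2⟩ := key g hg hgz
  obtain ⟨b1, b2⟩ := key h hh hhz
  ext i j
  have a3 : g 1 1 = g 0 0 - 2 * z.re * g 1 0 := by linarith
  have b3 : h 1 1 = h 0 0 - 2 * z.re * h 1 0 := by linarith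
  fin_cases i <;> fin_cases j <;>
    simp [Matrix.mul_apply, Fin.sum_univ_two] <;> (try rw [a3, b3]) <;> (try rw [a2, b2]) <;> ring

end Q184.Cong
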