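import Mathlib
import Pool.Agent.Q184.AlgInd

/-!
# A free family of 2 × 2 matrices of size continuum with prescribed signs of determinants
-/

open Matrix Polynomial

namespace Q184.Cong

variable {R : Type*} [CommRing R]

/-- The rank one matrix `(a;1)(1,-b)`. -/
def nn (a b : R) : Matrix (Fin 2) (Fin 2) R := !![a, -(a * b); 1, -b]

theorem nn_mul (a b c d : R) : nn a b * nn c d = (c - b) • nn a d := by
  ext i j
  fin_cases i <;> fin_cases j <;> simp [nn, Matrix.mul_apply, Fin.sum_univ_two] <;> ring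

theorem nn_sub (a b : R) : nn a b - nn b a = (a - b) • (1 : Matrix (Fin 2) (Fin 2) R) := by
  ext i j
  fin_cases i <;> fin_cases j <;> simp [nn] <;> ring

variable {M : Type*}

/-- The opposite letter. -/
def opp (l : M × Bool) : M × Bool := (l.1, !l.2)

/-- The matrix of a letter. -/
def lm (x : M × Bool → R) (e : M → R) (T : R) (l : M × Bool) : Matrix (Fin 2) (Fin 2) R :=
  T • nn (x l) (x (opp l)) - e l.1 • nn (x (opp l)) (x l)

theorem lm_det (x : M × Bool → R) (e : M → R) (T : R) (l : M × Bool) :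
    (lm x e T l).det = e l.1 * T * (x l - x (opp l)) ^ 2 := by
  rw [Matrix.det_fin_two]
  simp [lm, nn]
  ring

theorem opp_opp (l : M × Bool) : opp (opp l) = l := by
  simp [opp]

theorem lm_mul_opp (x : M × Bool → R) (e : M → R) (T : R) (l : M × Bool) :
    lm x e T l * lm x e T (opp l) =
      (-(e l.1 * T * (x l - x (opp l)) ^ 2)) • (1 : Matrix (Fin 2) (Fin 2) R) := by
  have h1 : (opp l).1 = l.1 := rfl
  unfold lm
  rw [opp_opp, h1]
  ext i j
  fin_cases i <;> fin_cases j <;> simp [nn, Matrix.mul_apply, Fin.sum_univ_two] <;> ring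

/-- `P` has entries of degree at most `n` with `n`-th coefficients `N`. -/
def HasLead (P : Matrix (Fin 2) (Fin 2) R[X]) (n : ℕ) (N : Matrix (Fin 2) (Fin 2) R) : Prop :=
  ∀ a b, (P a b).natDegree ≤ n ∧ (P a b).coeff n = N a b

theorem HasLead.mul {P Q : Matrix (Fin 2) (Fin 2) R[X]} {m n : ℕ}
    {A B : Matrix (Fin 2) (Fin 2) R} (hP : HasLead P m A) (hQ : HasLead Q n B) :
    HasLead (P * Q) (m + n) (A * B) := by
  intro a b
  constructor
  · rw [Matrix.mul_apply]
    refine natDegree_sum_le_of_forall_le _ _ fun k _ => ?_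
    exact (natDegree_mul_le).trans (add_le_add (hP a k).1 (hQ k b).1)
  · rw [Matrix.mul_apply, finsetSum_coeff, Matrix.mul_apply]
    refine Finset.sum_congr rfl fun k _ => ?_
    rw [coeff_mul_add_eq_of_natDegree_le (hP a k).1 (hQ k b).1, (hP a k).2, (hQ k b).2]

/-- The polynomial letter matrix. -/
noncomputable def pm (x : M × Bool → R) (e : M → R) (l : M × Bool) :
    Matrix (Fin 2) (Fin 2) R[X] :=
  lm (fun l => C (x l)) (fun i => C (e i)) X l

theorem pm_lead (x : M × Bool → R) (e : M → R) (l : M × Bool) :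
    HasLead (pm x e l) 1 (nn (x l) (x (opp l))) := by
  have hX : ∀ c : R, (X * C c : R[X]).natDegree ≤ 1 := fun c =>
    natDegree_mul_le.trans (by simpa using natDegree_X_le)
  have hC : ∀ c : R, (C c : R[X]).natDegree ≤ 1 := fun c => by simp
  have key : ∀ c d : R, (X * C c - C d : R[X]).natDegree ≤ 1 ∧
      (X * C c - C d : R[X]).coeff 1 = c := by
    intro c d
    refine ⟨(natDegree_sub_le _ _).trans (max_le (hX c) (hC d)), ?_⟩
    rw [coeff_sub, show (1 : ℕ) = 0 + 1 from rfl, coeff_X_mul, coeff_C_succ]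
    simp
  intro a b
  have : ∃ d : R, pm x e l a b = X * C (nn (x l) (x (opp l)) a b) - C d := by
    refine ⟨e l.1 * nn (x (opp l)) (x l) a b, ?_⟩
    fin_cases a <;> fin_cases b <;> simp [pm, lm, nn]
  obtain ⟨d, hd⟩ := this
  rw [hd]
  exact key _ _

theorem prod_lead [IsDomain R] (x : M × Bool → R) (hx : Function.Injective x) (e : M → R) :
    ∀ (L : List (M × Bool)) (l : M × Bool), FreeGroup.IsReduced (l :: L) →
      ∃ (c y : R), c ≠ 0 ∧
        HasLead (((l :: L).map (pm x e)).prod) (l :: L).length (c • nn (x l) y) := by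
  intro L
  induction L with
  | nil =>
    intro l _
    refine ⟨1, x (opp l), one_ne_zero, ?_⟩
    simpa using pm_lead x e l
  | cons l' L ih =>
    intro l hred
    have hred' : FreeGroup.IsReduced (l' :: L) := (FreeGroup.isReduced_cons_cons.mp hred).2
    obtain ⟨c, y, hc, hlead⟩ := ih l' hred'
    refine ⟨(x l' - x (opp l)) * c, y, mul_ne_zero ?_ hc, ?_⟩
    · rw [sub_ne_zero]
      intro h
      have h1 := hx h
      have h2 := (FreeGroup.isReduced_cons_cons.mp hred).1
      rw [h1] at h2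
      have h3 := h2 rfl
      simp [opp] at h3
    · have := (pm_lead x e l).mul hlead
      rw [Matrix.mul_smul, nn_mul, smul_smul] at this
      rw [List.map_cons, List.prod_cons]
      convert this using 1
      · simp [add_comm]
      · rw [mul_comm]

theorem prod_ne_zero [IsDomain R] [Algebra R ℝ] (x : M × Bool → R)
    (hx : Function.Injective x) (e : M → R) {T : ℝ} (hT : Transcendental R T)
    {L : List (M × Bool)} (hL : L ≠ []) (hred : FreeGroup.IsReduced L) :
    (L.map (lm (fun l => algebraMap R ℝ (x l)) (fun i => algebraMap R ℝ (e i)) T)).prod 1 0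
      ≠ 0 := by
  obtain ⟨l, L, rfl⟩ := List.exists_cons_of_ne_nil hL
  obtain ⟨c, y, hc, hlead⟩ := prod_lead x hx e L l hred
  have h1 : (((l :: L).map (pm x e)).prod 1 0) ≠ 0 := by
    intro h0
    have := (hlead 1 0).2
    rw [h0] at this
    simp [nn] at this
    exact hc this.symm
  have hmap : ∀ L : List (M × Bool),
      (L.map (lm (fun l => algebraMap R ℝ (x l)) (fun i => algebraMap R ℝ (e i)) T)).prod =
      (aeval T).mapMatrix ((L.map (pm x e)).prod) := by
    intro L
    rw [map_list_prod, List.map_map]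
    congr 1
    refine List.map_congr_left fun l _ => ?_
    ext a b
    fin_cases a <;> fin_cases b <;> simp [pm, lm, nn] <;> (try rw [Algebra.smul_def]) <;> ring_nf
  rw [hmap]
  intro h0
  have h2 : aeval T (((l :: L).map (pm x e)).prod 1 0) = 0 := h0
  exact hT ⟨_, h1, h2⟩

/-- A continuum-sized free family in `GL₂(ℝ)`, with prescribed signs of the determinants, such
that no nontrivial element is upper triangular. -/
theorem exists_family (M : Type) (hM : Cardinal.mk M ≤ Cardinal.continuum) (s : M → Prop) :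
    ∃ G : M → GL (Fin 2) ℝ,
      (∀ i, s i → 0 < (G i).det.val) ∧ (∀ i, ¬ s i → (G i).det.val < 0) ∧
      ∀ u : FreeGroup M, u ≠ 1 → (FreeGroup.lift G u) 1 0 ≠ 0 := by
  classical
  have hJ : Cardinal.mk (M × Bool) ≤ Cardinal.continuum := by
    rw [Cardinal.mk_prod]
    simp only [Cardinal.lift_id, Cardinal.mk_fintype, Fintype.card_bool]
    refine (mul_le_mul' hM (Cardinal.nat_lt_continuum 2).le).trans ?_
    rw [Cardinal.continuum_mul_self]
  obtain ⟨x, T, hx, hTpos, hT⟩ := exists_transcendental_over (M × Bool) hJ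
  have hxinj : Function.Injective x := hx.injective
  set A := Algebra.adjoin ℚ (Set.range x) with hA
  let x' : M × Bool → A := fun l => ⟨x l, Algebra.subset_adjoin ⟨l, rfl⟩⟩
  have hx' : Function.Injective x' := fun a b h => hxinj (congrArg Subtype.val h)
  let e : M → A := fun i => if s i then 1 else -1
  set m : M × Bool → Matrix (Fin 2) (Fin 2) ℝ :=
    lm (fun l => algebraMap A ℝ (x' l)) (fun i => algebraMap A ℝ (e i)) T with hm
  have hoppne : ∀ l : M × Bool, x l - x (opp l) ≠ 0 := by
    intro l h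
    have := hxinj (sub_eq_zero.mp h)
    have h2 := congrArg Prod.snd this
    simp [opp] at h2
  have hdet : ∀ l, (m l).det = algebraMap A ℝ (e l.1) * T * (x l - x (opp l)) ^ 2 := by
    intro l
    rw [hm, lm_det]
    rfl
  have he1 : ∀ i, s i → algebraMap A ℝ (e i) = 1 := by
    intro i hi
    simp [e, hi]
  have he2 : ∀ i, ¬ s i → algebraMap A ℝ (e i) = -1 := by
    intro i hi
    simp [e, hi]
  have hdet1 : ∀ l : M × Bool, s l.1 → 0 < (m l).det := by
    intro l hl
    rw [hdet, he1 _ hl, one_mul]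
    exact mul_pos hTpos (by positivity [hoppne l])
  have hdet2 : ∀ l : M × Bool, ¬ s l.1 → (m l).det < 0 := by
    intro l hl
    rw [hdet, he2 _ hl]
    have : 0 < T * (x l - x (opp l)) ^ 2 := mul_pos hTpos (by positivity [hoppne l])
    linarith
  have hdet0 : ∀ l, (m l).det ≠ 0 := by
    intro l
    by_cases h : s l.1
    · exact (hdet1 l h).ne'
    · exact (hdet2 l h).ne
  let G : M → GL (Fin 2) ℝ := fun i => Matrix.GeneralLinearGroup.mkOfDetNeZero (m (i, true)) (hdet0 _)
  have hGval : ∀ i, (G i : Matrix (Fin 2) (Fin 2) ℝ) = m (i, true) := fun i => rfl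
  have hGdet : ∀ i, (G i).det.val = (m (i, true)).det := fun i => rfl
  refine ⟨G, fun i hi => by rw [hGdet]; exact hdet1 _ hi,
    fun i hi => by rw [hGdet]; exact hdet2 _ hi, ?_⟩
  have hinv : ∀ i, ∃ k : ℝ, k ≠ 0 ∧
      (((G i)⁻¹ : GL (Fin 2) ℝ) : Matrix (Fin 2) (Fin 2) ℝ) = k • m (i, false) := by
    intro i
    have h1 := lm_mul_opp (fun l => algebraMap A ℝ (x' l)) (fun i => algebraMap A ℝ (e i)) T
      (i, true)
    rw [← hm] at h1
    set κ : ℝ := -(algebraMap A ℝ (e (i, true).1) * T *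
      (algebraMap A ℝ (x' (i, true)) - algebraMap A ℝ (x' (opp (i, true)))) ^ 2) with hκ
    have hκ0 : κ ≠ 0 := by
      have h2 := hdet0 (i, true)
      rw [hdet] at h2
      rw [hκ]
      exact neg_ne_zero.mpr h2
    have h3 : m (i, true) * (κ⁻¹ • m (i, false)) = 1 := by
      rw [Matrix.mul_smul]
      have h4 : m (i, true) * m (i, false) = κ • (1 : Matrix (Fin 2) (Fin 2) ℝ) := h1
      rw [h4, smul_smul, inv_mul_cancel₀ hκ0, one_smul]
    refine ⟨κ⁻¹, inv_ne_zero hκ0, ?_⟩
    have h5 : (((G i)⁻¹ : GL (Fin 2) ℝ) : Matrix (Fin 2) (Fin 2) ℝ) * m (i, true) = 1 := by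
      rw [← hGval i, ← Units.val_mul, inv_mul_cancel, Units.val_one]
    calc (((G i)⁻¹ : GL (Fin 2) ℝ) : Matrix (Fin 2) (Fin 2) ℝ)
        = (((G i)⁻¹ : GL (Fin 2) ℝ) : Matrix (Fin 2) (Fin 2) ℝ) *
          (m (i, true) * (κ⁻¹ • m (i, false))) := by rw [h3, mul_one]
      _ = κ⁻¹ • m (i, false) := by rw [← mul_assoc, h5, one_mul]
  have hlist : ∀ L : List (M × Bool), ∃ k : ℝ, k ≠ 0 ∧
      ((FreeGroup.lift G (FreeGroup.mk L) : GL (Fin 2) ℝ) : Matrix (Fin 2) (Fin 2) ℝ) =
        k • (L.map m).prod := by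
    intro L
    induction L with
    | nil =>
      refine ⟨1, one_ne_zero, ?_⟩
      simp [FreeGroup.lift_mk]
    | cons l L ih =>
      obtain ⟨k, hk, h⟩ := ih
      rw [FreeGroup.lift_mk] at h ⊢
      rw [List.map_cons, List.prod_cons, Units.val_mul, h, List.map_cons, List.prod_cons]
      obtain ⟨i, b⟩ := l
      cases b with
      | true =>
        refine ⟨k, hk, ?_⟩
        rw [Matrix.mul_smul]
        rfl
      | false =>
        obtain ⟨k', hk', h'⟩ := hinv i
        refine ⟨k * k', mul_ne_zero hk hk', ?_⟩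
        rw [Matrix.mul_smul]
        change k • ((((G i)⁻¹ : GL (Fin 2) ℝ) : Matrix (Fin 2) (Fin 2) ℝ) * _) = _
        rw [h', Matrix.smul_mul, smul_smul]
  intro u hu
  obtain ⟨k, hk, h⟩ := hlist u.toWord
  rw [FreeGroup.mk_toWord] at h
  have h0 : u.toWord ≠ [] := by
    intro h
    exact hu (FreeGroup.toWord_eq_nil_iff.mp h)
  have hne := prod_ne_zero x' hx' e hT h0 FreeGroup.isReduced_toWord
  rw [h]
  simp only [Matrix.smul_apply, smul_eq_mul]
  exact mul_ne_zero hk hne

end Q184.Cong
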