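import Mathlib
import Pool.Agent.Q184.Cong.Geom
import Pool.Agent.Q184.Cong.Mat
import Pool.Agent.Q184.Cong.Fun
import Pool.Agent.Q184.Cong.Dir

/-!
# Solving systems of congruences in the hyperbolic plane
-/

open UpperHalfPlane Matrix Function

namespace Q184.Cong

theorem sign_det {M : Type} (G : M → GL (Fin 2) ℝ) (s : M → ℤˣ)
    (h1 : ∀ i, s i = 1 → 0 < (G i).det.val) (h2 : ∀ i, s i = -1 → (G i).det.val < 0)
    (u : FreeGroup M) :
    (FreeGroup.lift s u = 1 ∧ 0 < (FreeGroup.lift G u).det.val) ∨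
    (FreeGroup.lift s u = -1 ∧ (FreeGroup.lift G u).det.val < 0) := by
  have hbase : ∀ i, (s i = 1 ∧ 0 < (G i).det.val) ∨ (s i = -1 ∧ (G i).det.val < 0) := by
    intro i
    rcases Int.units_eq_one_or (s i) with h | h
    · exact Or.inl ⟨h, h1 i h⟩
    · exact Or.inr ⟨h, h2 i h⟩
  induction u using FreeGroup.induction_on with
  | C1 => left; simp
  | of i => simpa using hbase i
  | inv_of i ih =>
    rcases ih with ⟨ha, hb⟩ | ⟨ha, hb⟩
    · left
      rw [map_inv, map_inv, map_inv, ha]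
      refine ⟨inv_one, ?_⟩
      rw [Units.val_inv_eq_inv_val]
      exact inv_pos.mpr hb
    · right
      rw [map_inv, map_inv, map_inv, ha]
      refine ⟨by decide, ?_⟩
      rw [Units.val_inv_eq_inv_val]
      exact inv_lt_zero.mpr hb
  | mul u v ihu ihv =>
    rw [map_mul, map_mul, map_mul, Units.val_mul]
    rcases ihu with ⟨ha, hb⟩ | ⟨ha, hb⟩ <;> rcases ihv with ⟨hc, hd⟩ | ⟨hc, hd⟩
    · left; rw [ha, hc]; exact ⟨by decide, mul_pos hb hd⟩
    · right; rw [ha, hc]; exact ⟨by decide, mul_neg_of_pos_of_neg hb hd⟩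
    · right; rw [ha, hc]; exact ⟨by decide, mul_neg_of_neg_of_pos hb hd⟩
    · left; rw [ha, hc]; exact ⟨by decide, mul_pos_of_neg_of_neg hb hd⟩

/-- The colouring that solves a proper system of congruences. -/
theorem exists_coloring (I M : Type) (L R : M → Set I) (i₀ : I)
    (hM : Cardinal.mk M ≤ Cardinal.continuum)
    (hLR : ∀ i, (L i).Nonempty ∧ L i ≠ Set.univ ∧ (R i).Nonempty ∧ R i ≠ Set.univ) :
    ∃ (c : ℍ → I) (g : M → GL (Fin 2) ℝ), ∀ i x, (c x ∈ L i ↔ c (g i • x) ∈ R i) := by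
  classical
  rcases isEmpty_or_nonempty M with hMe | ⟨⟨m0⟩⟩
  · exact ⟨fun _ => i₀, fun i => (hMe.false i).elim, fun i => (hMe.false i).elim⟩
  obtain ⟨G, hG1, hG2, hG3⟩ := exists_family M hM (fun i => (i₀ ∈ L i ↔ i₀ ∈ R i))
  let s : M → ℤˣ := fun i => sgn i₀ (L i) (R i)
  have hsd := sign_det G s (fun i hi => hG1 i (sgn_eq_one.mp hi))
    (fun i hi => hG2 i (sgn_ne_one.mp hi))
  set ρ : FreeGroup M →* GL (Fin 2) ℝ := FreeGroup.lift G with hρ
  set sg : FreeGroup M →* ℤˣ := FreeGroup.lift s with hsg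
  let φ : FreeGroup M →* Equiv.Perm ℍ := (MulAction.toPermHom (GL (Fin 2) ℝ) ℍ).comp ρ
  have hφ : ∀ u x, φ u x = ρ u • x := fun u x => rfl
  have hfix : ∀ u x, φ u x = x → sg u = 1 := by
    intro u x hux
    rcases hsd u with ⟨h, -⟩ | ⟨h, hdet⟩
    · exact h
    · exfalso
      have hu : u ≠ 1 := by
        rintro rfl
        rw [map_one] at h
        exact absurd h (by decide)
      have htr := trace_zero_of_fixed hdet (hux : ρ u • x = x)
      have hu2 : u ^ 2 ≠ 1 := by
        intro h2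
        apply hu
        have h3 : u ^ 2 = 1 ^ 2 := by rw [h2, one_pow]
        exact pow_left_injective (M := FreeGroup M) (n := 2) (by norm_num) h3
      apply hG3 _ hu2
      rw [pow_two, map_mul]
      rw [Units.val_mul, Matrix.mul_apply, Fin.sum_univ_two, htr]
      ring
  have hcomm : ∀ x u v, φ u x = x → φ v x = x → u * v = v * u := by
    intro x u v hu hv
    have hdu : 0 < (ρ u).det.val := by
      rcases hsd u with ⟨-, h⟩ | ⟨h, -⟩
      · exact h
      · rw [hfix u x hu] at h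
        exact absurd h (by decide)
    have hdv : 0 < (ρ v).det.val := by
      rcases hsd v with ⟨-, h⟩ | ⟨h, -⟩
      · exact h
      · rw [hfix v x hv] at h
        exact absurd h (by decide)
    have h1 := commute_of_fixed hdu hdv (hu : ρ u • x = x) (hv : ρ v • x = x)
    by_contra hne
    have h2 : u * v * (v * u)⁻¹ ≠ 1 := by
      intro h
      exact hne (mul_inv_eq_one.mp h)
    apply hG3 _ h2
    rw [map_mul, map_inv, map_mul, map_mul, h1, mul_inv_cancel]
    simp
  obtain ⟨D, hD⟩ := exists_direction φ hcomm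
  -- the functional graph
  let p : ℍ → ℍ := fun y => match D y with
    | none => y
    | some (i, true) => φ (FreeGroup.of i)⁻¹ y
    | some (i, false) => φ (FreeGroup.of i) y
  let lam : ℍ → FreeGroup M := fun y => match D y with
    | none => 1
    | some (i, true) => FreeGroup.of i
    | some (i, false) => (FreeGroup.of i)⁻¹
  let P : ℍ → Set I := fun y => match D y with
    | none => L m0
    | some (i, true) => R i
    | some (i, false) => L i
  let Q : ℍ → Set I := fun y => match D y with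
    | none => L m0
    | some (i, true) => L i
    | some (i, false) => R i
  have hP : ∀ y, (P y).Nonempty ∧ P y ≠ Set.univ := by
    intro y
    simp only [P]
    split
    · exact ⟨(hLR m0).1, (hLR m0).2.1⟩
    · exact ⟨(hLR _).2.2.1, (hLR _).2.2.2⟩
    · exact ⟨(hLR _).1, (hLR _).2.1⟩
  have hQ : ∀ y, (Q y).Nonempty ∧ Q y ≠ Set.univ := by
    intro y
    simp only [Q]
    split
    · exact ⟨(hLR m0).1, (hLR m0).2.1⟩
    · exact ⟨(hLR _).1, (hLR _).2.1⟩
    · exact ⟨(hLR _).2.2.1, (hLR _).2.2.2⟩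
  have hlam : ∀ y, φ (lam y) (p y) = y := by
    intro y
    simp only [lam, p]
    split <;> simp
  have hsgn : ∀ y, sg (lam y) = sgn i₀ (P y) (Q y) := by
    intro y
    simp only [lam, P, Q]
    split
    · rw [map_one]
      exact (sgn_eq_one.mpr Iff.rfl).symm
    · rw [hsg, FreeGroup.lift_apply_of]
      change sgn i₀ (L _) (R _) = sgn i₀ (R _) (L _)
      unfold sgn
      simp only [iff_comm]
    · rw [hsg, map_inv, FreeGroup.lift_apply_of]
      change (sgn i₀ (L _) (R _))⁻¹ = sgn i₀ (L _) (R _)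
      exact Int.units_inv_eq_self _
  have hcyc : ∀ y ∈ periodicPts p,
      ∃ k, Good p (fun y a b => (a ∈ P y ↔ b ∈ Q y)) (p^[k] y) := by
    intro y hy
    refine exists_good_of_periodic p P Q i₀ hP hQ y hy ?_
    have key : ∀ n, ∃ w : FreeGroup M, φ w (p^[n] y) = y ∧
        sg w = ∏ j ∈ Finset.range n, sgn i₀ (P (p^[j] y)) (Q (p^[j] y)) := by
      intro n
      induction n with
      | zero => exact ⟨1, by simp, by simp⟩
      | succ n ih =>
        obtain ⟨w, hw1, hw2⟩ := ih
        refine ⟨w * lam (p^[n] y), ?_, ?_⟩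
        · rw [map_mul, Equiv.Perm.mul_apply, iterate_succ_apply', hlam, hw1]
        · rw [map_mul, hw2, hsgn, Finset.prod_range_succ]
    obtain ⟨w, hw1, hw2⟩ := key (minimalPeriod p y)
    rw [iterate_minimalPeriod] at hw1
    rw [← hw2]
    exact hfix w y hw1
  have hf : ∀ (S : Set I), S.Nonempty → S ≠ Set.univ → ∀ a : Prop, ∃ b, (b ∈ S ↔ a) := by
    intro S h1 h2 a
    by_cases ha : a
    · obtain ⟨b, hb⟩ := h1
      exact ⟨b, by simp [hb, ha]⟩
    · obtain ⟨b, hb⟩ := (Set.ne_univ_iff_exists_notMem _).mp h2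
      exact ⟨b, by simp [hb, ha]⟩
  obtain ⟨c, hc⟩ := exists_solution p (fun y a b => (a ∈ P y ↔ b ∈ Q y)) ⟨i₀⟩
    (fun y b => hf (P y) (hP y).1 (hP y).2 (b ∈ Q y))
    (exists_good p _ ⟨i₀⟩ (fun y a => by
      obtain ⟨b, hb⟩ := hf (Q y) (hQ y).1 (hQ y).2 (a ∈ P y)
      exact ⟨b, hb.symm⟩) hcyc)
  refine ⟨c, G, fun i x => ?_⟩
  have hgx : φ (FreeGroup.of i) x = G i • x := by
    rw [hφ, hρ, FreeGroup.lift_apply_of]
  rcases hD x i with h | h
  · have h1 := hc (φ (FreeGroup.of i) x)
    have hp : p (φ (FreeGroup.of i) x) = x := by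
      simp only [p, h]
      simp
    have hP' : P (φ (FreeGroup.of i) x) = R i := by simp only [P, h]
    have hQ' : Q (φ (FreeGroup.of i) x) = L i := by simp only [Q, h]
    rw [hp, hP', hQ', hgx] at h1
    exact h1.symm
  · have h1 := hc x
    have hp : p x = φ (FreeGroup.of i) x := by
      simp only [p, h]
    have hP' : P x = L i := by simp only [P, h]
    have hQ' : Q x = R i := by simp only [Q, h]
    rw [hp, hP', hQ', hgx] at h1
    exact h1

end Q184.Cong
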